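import Pool.Agent.W5h26.AX.Mom

/-!
# The moments of the L-functions of all the elliptic curves over all the extensions of degree `d`

Let `K` be a number field and `d ≥ 2`. We average over all the pairs `(L, E)`, where `L = K(θ)`, `θ` a
root of a monic irreducible polynomial `H` of degree `d` with integral coefficients, is an extension of
degree `d` of `K`, and where `E : y² = x³ + U_2(θ) x² + U_1(θ) x + U_0(θ)` is an elliptic curve over `L`
with coefficients in `𝓞_K[θ]`. The pairs `(H, U)` form a lattice (up to the reducible `H`, which have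
density `0`), and we show that the mean value of `L(E/L, s) ^ k`, for every integer `k` (positive or
negative), continues meromorphically from `Re s > 3/2` to `Re s > 5/6`, analytic but for a pole of order
exactly `k (k - 1) / 2` at `s = 1`, for every Følner sequence of the lattice.

More generally we consider the curves of genus `g` through `r ≤ 2 g - 1` given points with coordinates
in `𝓞_K`, for which the mean value is `(s - 1) ^ (k r - k (k - 1) / 2) B(s)`, `B(1) ≠ 0`.
The exponent does not depend on `d`: it is the one for the curves over `K` itself.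

The L-function. For a prime `v` of `K` of odd residue characteristic such that `H` is separable modulo
`v` the primes `w` of `L` above `v` correspond to the irreducible factors of `H` modulo `v`, that is, to
the orbits of the Frobenius on the roots `t` of `H` in the algebraic closure of the residue field, and the
reduction of the curve at `w` is the curve `y² = f_t(x)`. The product of the Euler factors at the
`w` above `v` is therefore `exp(∑_m T_v(m) q_v^{-m s} / m)` with `T_v(m)` the sum, over the roots `t` of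
`H` in the field with `q_v ^ m` elements for which `f_t` is separable, of `q_v ^ m` minus the number of
the affine points over this field of the curve `y² = f_t(x)`. This is the definition of the Euler factor
below. (The primes of even residue characteristic, those where `H` is not separable, and those at which
the equation of the curve is not smooth are left out of the product.)
-/

set_option autoImplicit false

namespace Pool.Agent.Results.MP_0d9be2_nt.AllExtensionsOfDegree

open NumberField IsDedekindDomain Polynomial Filter Topology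

/-- The polynomial `X ^ d + c_{d-1} X ^ (d-1) + … + c_0`. -/
noncomputable def monicPoly {R : Type} [CommRing R] {d : ℕ} (c : Fin d → R) : R[X] :=
  X ^ d + ∑ i : Fin d, C (c i) * X ^ (i : ℕ)

/-- The polynomial `a + (h_0 + h_1 X + … + h_{n-1} X ^ (n-1)) ∏ (X - α_j)`. -/
noncomputable def member {R : Type} [CommRing R] {r n : ℕ} (a : R[X]) (α : Fin r → R)
    (h : Fin n → R) : R[X] :=
  a + (∑ i : Fin n, C (h i) * X ^ (i : ℕ)) * ∏ j, (X - C (α j))

section param

/-- The parameters: the coefficients `c_i`, `i < d`, of the polynomial `H = X ^ d + ∑ c_i X ^ i`, and the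
coefficients `u_{j i}`, `i < d`, of the polynomials `U_j = ∑ u_{j i} X ^ i`, `j < n`. -/
def Param (K : Type) [Field K] (n d : ℕ) : Type := (Fin d → 𝓞 K) × (Fin n → Fin d → 𝓞 K)

variable {K : Type} [Field K] {n d : ℕ}

/-- The parameters form a lattice. -/
noncomputable instance paramGroup : AddCommGroup (Param K n d) :=
  inferInstanceAs (AddCommGroup ((Fin d → 𝓞 K) × (Fin n → Fin d → 𝓞 K)))

/-- The coefficients of `H`. -/
def Param.c (P : Param K n d) : Fin d → 𝓞 K := Prod.fst P

/-- The coefficients of the `U_j`. -/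
def Param.u (P : Param K n d) : Fin n → Fin d → 𝓞 K := Prod.snd P

/-- The polynomial `H` is irreducible over `K`, so that `K[X]/(H)` is an extension of degree `d`. -/
def Param.IsField (P : Param K n d) : Prop :=
  Irreducible ((monicPoly P.c).map (algebraMap (𝓞 K) K))

end param

section analytic

variable {K : Type} [Field K] [NumberField K]

/-- The residue field of the prime `v`. -/
noncomputable instance residueField (v : HeightOneSpectrum (𝓞 K)) : Field (𝓞 K ⧸ v.asIdeal) :=
  Pool.Agent.R409.RA.fieldQuot v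

/-- The algebraic closure of the residue field of `v`. -/
def Closure (v : HeightOneSpectrum (𝓞 K)) : Type := AlgebraicClosure (𝓞 K ⧸ v.asIdeal)

/-- It is a field. -/
noncomputable instance closureField (v : HeightOneSpectrum (𝓞 K)) : Field (Closure v) :=
  inferInstanceAs (Field (AlgebraicClosure (𝓞 K ⧸ v.asIdeal)))

/-- The reduction modulo `v`, in the algebraic closure of the residue field. -/
noncomputable def red (v : HeightOneSpectrum (𝓞 K)) : 𝓞 K →+* Closure v :=
  (algebraMap (𝓞 K ⧸ v.asIdeal) (AlgebraicClosure (𝓞 K ⧸ v.asIdeal))).comp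
    (Ideal.Quotient.mk v.asIdeal)

/-- The value `∑ u_i t ^ i` modulo `v`. -/
noncomputable def value (v : HeightOneSpectrum (𝓞 K)) {d : ℕ} (u : Fin d → 𝓞 K)
    (t : Closure v) : Closure v :=
  ∑ i : Fin d, red v (u i) * t ^ (i : ℕ)

/-- The polynomial `f_t = a + (U_0(t) + U_1(t) X + … + U_{n-1}(t) X ^ (n-1)) ∏ (X - α_j)` modulo
`v`. -/
noncomputable def curveAt (v : HeightOneSpectrum (𝓞 K)) {r n d : ℕ} (a : (𝓞 K)[X])
    (α : Fin r → 𝓞 K) (P : Param K n d) (t : Closure v) : (Closure v)[X] :=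
  member (a.map (red v)) (fun j => red v (α j)) (fun j => value v (P.u j) t)

/-- The element `t` lies in the field with `q_v ^ m` elements, where `q_v` is the number of elements of
the residue field of `v`. -/
def IsIn (v : HeightOneSpectrum (𝓞 K)) (m : ℕ) (t : Closure v) : Prop :=
  t ^ (Ideal.absNorm v.asIdeal ^ m) = t

/-- `t` is a root of `H` modulo `v` in the field with `q_v ^ m` elements, and the curve `y² = f_t(x)` is
smooth. -/
def IsSmoothRoot (v : HeightOneSpectrum (𝓞 K)) {r n d : ℕ} (a : (𝓞 K)[X]) (α : Fin r → 𝓞 K)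
    (P : Param K n d) (m : ℕ) (t : Closure v) : Prop :=
  IsIn v m t ∧ t ^ d + value v P.c t = 0 ∧ (curveAt v a α P t).Separable

/-- `(x, y)` is a point of the curve `y² = f_t(x)`, with coordinates in the field with `q_v ^ m`
elements, where `z = (t, x, y)`, and `t` is as before. -/
def IsPoint (v : HeightOneSpectrum (𝓞 K)) {r n d : ℕ} (a : (𝓞 K)[X]) (α : Fin r → 𝓞 K)
    (P : Param K n d) (m : ℕ) (z : Closure v × Closure v × Closure v) : Prop :=
  IsSmoothRoot v a α P m z.1 ∧ IsIn v m z.2.1 ∧ IsIn v m z.2.2 ∧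
    z.2.2 ^ 2 = (curveAt v a α P z.1).eval z.2.1

/-- `T_v(m)`: the sum over these `t` of `q_v ^ m` minus the number of the points `(x, y)` of the curve
`y² = f_t(x)` with `x`, `y` in the field with `q_v ^ m` elements. -/
noncomputable def trace (v : HeightOneSpectrum (𝓞 K)) {r n d : ℕ} (a : (𝓞 K)[X]) (α : Fin r → 𝓞 K)
    (P : Param K n d) (m : ℕ) : ℤ :=
  (Ideal.absNorm v.asIdeal : ℤ) ^ m * Nat.card {t // IsSmoothRoot v a α P m t} -
    Nat.card {z // IsPoint v a α P m z}

/-- The product of the Euler factors at the primes above `v`: `exp(∑_{m ≥ 1} T_v(m) q_v^{-m s} / m)`. -/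
noncomputable def eulerFactor (v : HeightOneSpectrum (𝓞 K)) {r n d : ℕ} (a : (𝓞 K)[X])
    (α : Fin r → 𝓞 K) (P : Param K n d) (s : ℂ) : ℂ :=
  Complex.exp (∑' m : ℕ, (trace v a α P (m + 1) : ℂ) *
    ((Ideal.absNorm v.asIdeal : ℂ) ^ (-s)) ^ (m + 1) / (m + 1))

/-- The prime `v` has odd residue characteristic and `H` is separable modulo `v`. -/
def Param.IsGood {n d : ℕ} (P : Param K n d) (v : HeightOneSpectrum (𝓞 K)) : Prop :=
  (2 : 𝓞 K) ∉ v.asIdeal ∧ ((monicPoly P.c).map (Ideal.Quotient.mk v.asIdeal)).Separable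

/-- The L-function (of the Jacobian) of the curve `y² = f_θ(x)` over the algebra `K[θ] = K[X]/(H)`. -/
noncomputable def LFun {r n d : ℕ} (a : (𝓞 K)[X]) (α : Fin r → 𝓞 K) (P : Param K n d) (s : ℂ) : ℂ :=
  ∏' v : {v : HeightOneSpectrum (𝓞 K) // P.IsGood v}, eulerFactor v.1 a α P s

end analytic

section mean

open Classical in
/-- `F` is a Følner sequence of the abelian group `A`: a sequence of nonempty finite sets such that for
every `a` the proportion of the `x` in `F j` for which `x + a` is not in `F j` tends to `0`. -/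
def IsFolner {A : Type} [AddCommGroup A] (F : ℕ → Finset A) : Prop :=
  (∀ j, (F j).Nonempty) ∧ ∀ a : A, Tendsto (fun j =>
    (((F j).filter fun x => x + a ∉ F j).card : ℝ) / ((F j).card : ℝ)) atTop (𝓝 0)

/-- `μ` is the mean value of `φ`: the limit of the averages over `F j`, for every Følner sequence
`F`. -/
def IsMean {A : Type} [AddCommGroup A] (φ : A → ℂ) (μ : ℂ) : Prop :=
  ∀ F : ℕ → Finset A, IsFolner F →
    Tendsto (fun j => (∑ x ∈ F j, φ x) / ((F j).card : ℂ)) atTop (𝓝 μ)

end mean

section proof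

open Pool.Agent.W5h26 Pool.Agent.W5h26.AX Pool.Agent.W5h26.AO

variable {K : Type} [Field K] {r n d : ℕ}

/-- The parameters in one row. -/
noncomputable def flat (K : Type) [Field K] (n d : ℕ) :
    Param K n d ≃+ (Fin ((n + 1) * d) → 𝓞 K) where
  toFun P := (uncE (𝓞 K) (n + 1) d).symm (Fin.cons P.c P.u)
  invFun q := (unc q 0, fun j => unc q j.succ)
  left_inv P := by
    have h : unc ((uncE (𝓞 K) (n + 1) d).symm (Fin.cons P.c P.u)) =
        (Fin.cons P.c P.u : Fin (n + 1) → Fin d → 𝓞 K) := by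
      rw [← uncE_apply, Equiv.apply_symm_apply]
    simp only [h, Fin.cons_zero, Fin.cons_succ]
    rfl
  right_inv q := by
    rw [Equiv.symm_apply_eq, uncE_apply]
    funext i
    refine Fin.cases ?_ (fun j => ?_) i
    · rfl
    · rfl
  map_add' P Q := by
    rw [Equiv.symm_apply_eq]
    have h : ∀ x y : Fin ((n + 1) * d) → 𝓞 K, uncE (𝓞 K) (n + 1) d (x + y) =
        uncE (𝓞 K) (n + 1) d x + uncE (𝓞 K) (n + 1) d y := fun x y => rfl
    rw [h, Equiv.apply_symm_apply, Equiv.apply_symm_apply]
    funext i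
    refine Fin.cases ?_ (fun j => ?_) i
    · rfl
    · rfl

theorem unc_flat (P : Param K n d) :
    unc (flat K n d P) = (Fin.cons P.c P.u : Fin (n + 1) → Fin d → 𝓞 K) := by
  show unc ((uncE (𝓞 K) (n + 1) d).symm (Fin.cons P.c P.u)) = _
  rw [← uncE_apply, Equiv.apply_symm_apply]

variable [NumberField K]

omit [NumberField K] in
theorem unc_rho (v : HeightOneSpectrum (𝓞 K)) (P : Param K n d) :
    unc (rho v _ (flat K n d P)) = fun i j => Ideal.Quotient.mk v.asIdeal
      ((Fin.cons P.c P.u : Fin (n + 1) → Fin d → 𝓞 K) i j) := by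
  rw [← unc_flat]
  rfl

/-- The embedding of the residue field. -/
noncomputable def emb (v : HeightOneSpectrum (𝓞 K)) : 𝓞 K ⧸ v.asIdeal →+* Closure v :=
  algebraMap (𝓞 K ⧸ v.asIdeal) (AlgebraicClosure (𝓞 K ⧸ v.asIdeal))

theorem emb_mk (v : HeightOneSpectrum (𝓞 K)) (x : 𝓞 K) :
    emb v (Ideal.Quotient.mk v.asIdeal x) = red v x := rfl

theorem value_eq (v : HeightOneSpectrum (𝓞 K)) (u : Fin d → 𝓞 K) (t : Closure v) :
    Lx (emb v) d t 1 (fun i => Ideal.Quotient.mk v.asIdeal (u i)) = value v u t := by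
  show (∑ i : Fin d, emb v (Ideal.Quotient.mk v.asIdeal (u i)) * t ^ (i : ℕ)) * 1 = _
  rw [mul_one]
  rfl

theorem curve_eq (v : HeightOneSpectrum (𝓞 K)) (a : (𝓞 K)[X]) (α : Fin r → 𝓞 K)
    (P : Param K n d) (t : Closure v) :
    fib (emb v) (AO.red v a)
      (fun j => Ideal.Quotient.mk v.asIdeal (α j)) (unc (rho v _ (flat K n d P))) t =
      curveAt v a α P t := by
  rw [unc_rho]
  have h1 : ∀ j : Fin n, Lx (emb v) d t 1
      ((fun i j => Ideal.Quotient.mk v.asIdeal
        ((Fin.cons P.c P.u : Fin (n + 1) → Fin d → 𝓞 K) i j)) j.succ) = value v (P.u j) t :=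
    fun j => value_eq v (P.u j) t
  have h2 : (AO.red v a).map (emb v) = a.map (red v) := by
    unfold AO.red
    rw [Polynomial.map_map]
    rfl
  unfold fib
  simp only [h1, h2]
  rfl

theorem root_eq (v : HeightOneSpectrum (𝓞 K)) (P : Param K n d) (t : Closure v) :
    Lx (emb v) d t 1 (unc (rho v _ (flat K n d P)) 0) = value v P.c t := by
  rw [unc_rho]
  exact value_eq v P.c t

theorem rt_iff (v : HeightOneSpectrum (𝓞 K)) (a : (𝓞 K)[X]) (α : Fin r → 𝓞 K)
    (P : Param K n d) (m : ℕ) (t : Closure v) :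
    (t ^ (Nat.card (𝓞 K ⧸ v.asIdeal) ^ m) = t ∧
      Rt (emb v) (AO.red v a)
        (fun j => Ideal.Quotient.mk v.asIdeal (α j)) (unc (rho v _ (flat K n d P))) t) ↔
      IsSmoothRoot v a α P m t := by
  unfold Rt IsSmoothRoot
  rw [root_eq, curve_eq]
  rfl

/-- the traces of the library, written with the new names -/
theorem trA_def (v : HeightOneSpectrum (𝓞 K)) (a : (𝓞 K ⧸ v.asIdeal)[X])
    (α : Fin r → 𝓞 K ⧸ v.asIdeal) (P : Fin (n + 1) → Fin d → 𝓞 K ⧸ v.asIdeal) (m : ℕ) :
    trA a α P m = (Nat.card (𝓞 K ⧸ v.asIdeal) : ℤ) ^ m * Nat.card {t : Closure v //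
      t ^ (Nat.card (𝓞 K ⧸ v.asIdeal) ^ m) = t ∧ Rt (emb v) a α P t} -
    Nat.card {z : Closure v × Closure v × Closure v //
      (z.1 ^ (Nat.card (𝓞 K ⧸ v.asIdeal) ^ m) = z.1 ∧ Rt (emb v) a α P z.1) ∧
      z.2.1 ^ (Nat.card (𝓞 K ⧸ v.asIdeal) ^ m) = z.2.1 ∧
      z.2.2 ^ (Nat.card (𝓞 K ⧸ v.asIdeal) ^ m) = z.2.2 ∧
      z.2.2 ^ 2 = (fib (emb v) a α P z.1).eval z.2.1} := rfl

theorem trace_eq (v : HeightOneSpectrum (𝓞 K)) (a : (𝓞 K)[X]) (α : Fin r → 𝓞 K)
    (P : Param K n d) (m : ℕ) :
    trA (AO.red v a) (fun j => Ideal.Quotient.mk v.asIdeal (α j))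
      (unc (rho v _ (flat K n d P))) m = trace v a α P m := by
  rw [trA_def]
  simp only [rt_iff, curve_eq]
  rfl

omit [NumberField K] in
theorem mon_eq (v : HeightOneSpectrum (𝓞 K)) (P : Param K n d) :
    mon (unc (rho v _ (flat K n d P)) 0) =
      (monicPoly P.c).map (Ideal.Quotient.mk v.asIdeal) := by
  rw [unc_rho]
  exact (mon_map P.c _).symm

open Classical in
theorem tau_eq (v : HeightOneSpectrum (𝓞 K)) (a : (𝓞 K)[X]) (α : Fin r → 𝓞 K)
    (P : Param K n d) (m : ℕ) :
    tau a α n d v (rho v _ (flat K n d P)) m =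
      if P.IsGood v then (trace v a α P m : ℝ) else 0 := by
  unfold tau gA Param.IsGood
  rw [trace_eq, mon_eq]
  have h := char_two v
  by_cases h1 : (2 : 𝓞 K) ∉ v.asIdeal
  · by_cases h2 : ((monicPoly P.c).map (Ideal.Quotient.mk v.asIdeal)).Separable
    · rw [if_pos ⟨h.2 h1, h2⟩, if_pos ⟨h1, h2⟩]
    · rw [if_neg fun h0 => h2 h0.2, if_neg fun h0 => h2 h0.2]
  · rw [if_neg fun h0 => h1 (h.1 h0.1), if_neg fun h0 => h1 h0.1]

end proof

open Classical in
/-- **The moments over all the extensions of degree `d`.** Let `K` be a number field, `d ≥ 2`,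
`n + 2 + r = 2 g + 1`, `a` a monic polynomial of degree `2 g + 1` over the integers of `K`, and
`a(α_j) = y_j²`, `1 ≤ j ≤ r`, with different `α_j` and with `y_j ≠ 0`. (For `g = 1`, `r = 0`, `a = X³`
these are the curves `y² = x³ + U_2(θ) x² + U_1(θ) x + U_0(θ)`.)

(1) The polynomials `H` which are irreducible over `K` have density `1`.

(2) The product of the Euler factors of `P = (H, U)` converges for `Re s > 3/2`, and its value is not
zero.

(3) Let `k` be an integer. There is a function `B`, meromorphic in `Re s > 5/6` and analytic in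
`Re s ≥ 1`, with `B(1) ≠ 0`, such that for `Re s > 3/2` the mean value over all the `P = (H, U)`, `H`
irreducible, of the `k`-th power of the L-function is `(s - 1) ^ (k r - k (k - 1) / 2) B(s)`. If `r = 0`
then `B` is analytic in `Re s > 5/6`.

(4) There are Følner sequences for the family. -/
theorem result (K : Type) [Field K] [NumberField K] (g r n d : ℕ) (hd2 : 2 ≤ d)
    (hn : n + 2 + r = 2 * g + 1)
    (a : (𝓞 K)[X]) (ha : a.Monic) (hd : a.natDegree = 2 * g + 1) (α y : Fin r → 𝓞 K)
    (hα : Function.Injective α) (hy : ∀ j, a.eval (α j) = y j ^ 2) (hy0 : ∀ j, y j ≠ 0) :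
    IsMean (fun P : Param K (n + 2) d => if P.IsField then 1 else 0) 1 ∧
    (∀ (P : Param K (n + 2) d) (s : ℂ), 3 / 2 < s.re →
      Multipliable (fun v : {v : HeightOneSpectrum (𝓞 K) // P.IsGood v} =>
        eulerFactor v.1 a α P s) ∧ LFun a α P s ≠ 0) ∧
    (∀ k : ℤ, ∃ B : ℂ → ℂ,
      (∀ s : ℂ, 3 / 2 < s.re →
        IsMean (fun P : Param K (n + 2) d => if P.IsField then LFun a α P s ^ k else 0)
          ((s - 1) ^ (k * r - k * (k - 1) / 2) * B s)) ∧
      MeromorphicOn B {s | (5 / 6 : ℝ) < s.re} ∧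
      (∀ s : ℂ, 1 ≤ s.re → AnalyticAt ℂ B s) ∧ B 1 ≠ 0 ∧
      (r = 0 → ∀ s : ℂ, 5 / 6 < s.re → AnalyticAt ℂ B s)) ∧
    ∃ F : ℕ → Finset (Param K (n + 2) d), IsFolner F := by
  obtain ⟨m, rfl⟩ : ∃ m, d = m + 2 := ⟨d - 2, by omega⟩
  obtain ⟨C, H⟩ := Pool.Agent.W5h26.AX.fam (m := m) ha hd hn hα hy hy0
  set e := flat K (n + 2) (m + 2) with he
  have hL : ∀ (P : Param K (n + 2) (m + 2)) (s : ℂ), 3 / 2 < s.re →
      HasProd (fun v : {v : HeightOneSpectrum (𝓞 K) // P.IsGood v} =>
        eulerFactor v.1 a α P s)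
        (Complex.exp (Pool.Agent.W5h26.AB.Lam
          (Pool.Agent.W5h26.AX.tau a α (n + 2) (m + 2)) (e P) s)) := by
    intro P s hs
    have h1 := Pool.Agent.W5h26.AX.euler_fam H (e P) hs (G := fun v => P.IsGood v)
      (fun v hv l => by rw [he, tau_eq, if_neg hv])
    refine h1.congr_fun fun v => ?_
    unfold eulerFactor Pool.Agent.W5h26.AB.sl
    congr 1
    refine tsum_congr fun l => ?_
    rw [he, tau_eq, if_pos v.2]
    push_cast
    rfl
  have hL2 : ∀ (P : Param K (n + 2) (m + 2)) (s : ℂ),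
      3 / 2 < s.re → LFun a α P s = Complex.exp (Pool.Agent.W5h26.AB.Lam
          (Pool.Agent.W5h26.AX.tau a α (n + 2) (m + 2)) (e P) s) :=
    fun P s hs => (hL P s hs).tprod_eq
  have hirr : ∀ P : Param K (n + 2) (m + 2),
      Pool.Agent.W5h26.AX.redu (n + 2) (m + 2) (e P) = if P.IsField then 0 else 1 := by
    intro P
    unfold Pool.Agent.W5h26.AX.redu
    rw [he, unc_flat]
    rfl
  have hmean : ∀ (F : ℕ → Finset (Param K (n + 2) (m + 2)))
      (φ : (Fin ((n + 2 + 1) * (m + 2)) → 𝓞 K) → ℂ) (j : ℕ),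
      Pool.Agent.W5h26.AO.mean ((F j).map e.toEquiv.toEmbedding) φ =
        (∑ x ∈ F j, φ (e x)) / ((F j).card : ℂ) := by
    intro F φ j
    unfold Pool.Agent.W5h26.AO.mean
    rw [Finset.sum_map, Finset.card_map]
    rfl
  refine ⟨fun F hF => ?_, fun P s hs => ⟨(hL P s hs).multipliable, ?_⟩, fun k => ?_, ?_⟩
  · have hF' := Pool.Agent.W5h26.AO.folner_map e (F := F) ⟨hF.1, hF.2⟩
    have h1 := Pool.Agent.W5h26.AX.redu_mean (K := K) (n := n + 2) (d := m + 2) (by omega) hF'
    have h2 : Tendsto (fun j => ((((∑ h ∈ (F j).map e.toEquiv.toEmbedding,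
        Pool.Agent.W5h26.AX.redu (n + 2) (m + 2) h) /
        (((F j).map e.toEquiv.toEmbedding).card : ℝ) : ℝ)) : ℂ)) atTop (𝓝 ((0 : ℝ) : ℂ)) :=
      (Complex.continuous_ofReal.tendsto 0).comp h1
    have h3 := (tendsto_const_nhds (x := (1 : ℂ))).sub h2
    rw [Complex.ofReal_zero, sub_zero] at h3
    refine h3.congr fun j => ?_
    have hc : ((F j).card : ℂ) ≠ 0 := by
      exact_mod_cast (Finset.card_pos.2 (hF.1 j)).ne'
    rw [Finset.sum_map, Finset.card_map]
    push_cast
    rw [eq_div_iff hc, sub_mul, one_mul, div_mul_cancel₀ _ hc]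
    have h4 : ((F j).card : ℂ) = ∑ x ∈ F j, (1 : ℂ) := by simp
    rw [h4, ← Finset.sum_sub_distrib]
    refine Finset.sum_congr rfl fun P _ => ?_
    have h5 : (Pool.Agent.W5h26.AX.redu (n + 2) (m + 2) (e.toEquiv.toEmbedding P)) =
        if P.IsField then 0 else 1 := hirr P
    rw [h5]
    split_ifs <;> simp
  · rw [hL2 P s hs]
    exact Complex.exp_ne_zero _
  · obtain ⟨B, h1, h2, h3, h4, h5⟩ :=
      Pool.Agent.W5h26.AX.moment_ext (m := m) ha hd hn hα hy hy0 k
    refine ⟨B, fun s hs F hF => ?_, h1, h2, h3, h4⟩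
    have hF' := Pool.Agent.W5h26.AO.folner_map e (F := F) ⟨hF.1, hF.2⟩
    refine (h5 s hs _ hF').congr fun j => ?_
    rw [hmean F]
    congr 1
    refine Finset.sum_congr rfl fun P _ => ?_
    beta_reduce
    rw [hirr, hL2 P s hs, ← Complex.exp_int_mul]
    split_ifs <;> simp
  · obtain ⟨F, hF⟩ := Pool.Agent.W5h26.AO.exists_folner
      ((Fin (m + 2) → 𝓞 K) × (Fin (n + 2) → Fin (m + 2) → 𝓞 K))
    exact ⟨F, hF.nonempty, hF.shift⟩

end Pool.Agent.Results.MP_0d9be2_nt.AllExtensionsOfDegree
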