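import Pool.Agent.W5h26.AO.MomC
import Pool.Agent.W5h26.AO.Box
import Pool.Agent.W5h26.AO.Chr

/-!
# All moments of the L-functions of the elliptic curves over a number field continue meromorphically

Let `K` be a number field. For a single elliptic curve `E` over `K` the L-function `L(s, E)` is known
only for `Re s > 3/2`, where the Euler product converges, unless `K` is totally real or a CM field. We
show that the mean value of `L(s, E) ^ k`, for every integer `k` (positive or negative), over the lattice
of all Weierstrass equations `y² = x³ + h_2 x² + h_1 x + h_0` over the integers of `K` (the mean value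
exists for `Re s > 3/2`, for every Følner sequence of the lattice) continues to a function which is
analytic in `Re s > 5/6` except at `s = 1`, where it has a pole of order exactly `k (k - 1) / 2`.
This exponent is the one predicted for the `k`-th moment at the central point of a family of orthogonal
symmetry.

More generally we consider all the curves `y² = f(x)` of genus `g ≥ 1`, `f` monic of degree `2 g + 1`,
through `r ≤ 2 g - 1` given integral points `(α_j, y_j)`, and the L-functions of their Jacobians. The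
mean value of the `k`-th power is `(s - 1) ^ (k r - k (k - 1) / 2) B(s)` with `B` meromorphic in
`Re s > 5/6`, analytic in `Re s ≥ 1`, `B(1) ≠ 0`. For example (`k = 1`) the mean value of the L-function
vanishes at the central point to order exactly `r`.

Proof. The Euler factors at different primes are independent in the family. By Weil's bound and by the
averages of the traces `- r + O(q_v ^ (-1/2))`, `- q_v + O(1)` for the square of the Frobenius, and
`q_v + O(1)` for the square of the trace, the average of the `k`-th power of the Euler factor at `v` is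
`1 - k r q_v ^ (-s) + (k (k - 1) / 2) q_v ^ (1 - 2 s) + O(q_v ^ (3/2 - 3 s) + q_v ^ (-1/2 - s) + …)`.
-/

set_option autoImplicit false

namespace Pool.Agent.Results.MP_0d9be2_nt.MomentsContinue

open NumberField IsDedekindDomain Polynomial Filter Topology

/-- The polynomial `a + (h_0 + h_1 X + … + h_{n-1} X ^ (n-1)) ∏ (X - α_j)`. -/
noncomputable def member {R : Type} [CommRing R] {r n : ℕ} (a : R[X]) (α : Fin r → R)
    (h : Fin n → R) : R[X] :=
  a + (∑ i : Fin n, C (h i) * X ^ (i : ℕ)) * ∏ j, (X - C (α j))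

section analytic

variable {K : Type} [Field K] [NumberField K]

/-- The residue field of the prime `v`. -/
noncomputable instance residueField (v : HeightOneSpectrum (𝓞 K)) : Field (𝓞 K ⧸ v.asIdeal) :=
  Pool.Agent.R409.RA.fieldQuot v

/-- The curve `y² = f(x)` has good reduction at `v` in this equation: the residue characteristic is odd
and `f` is separable modulo `v`. -/
def IsGood (f : (𝓞 K)[X]) (v : HeightOneSpectrum (𝓞 K)) : Prop :=
  (2 : 𝓞 K) ∉ v.asIdeal ∧ (f.map (Ideal.Quotient.mk v.asIdeal)).Separable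

/-- The number of the points with coordinates in the field with `q_v ^ m` elements of the affine curve
`y² = f(x)` over the residue field of `v`, which has `q_v` elements. -/
noncomputable def points (f : (𝓞 K)[X]) (v : HeightOneSpectrum (𝓞 K)) (m : ℕ) : ℕ :=
  Nat.card {P : AlgebraicClosure (𝓞 K ⧸ v.asIdeal) × AlgebraicClosure (𝓞 K ⧸ v.asIdeal) //
    P.1 ^ (Ideal.absNorm v.asIdeal ^ m) = P.1 ∧ P.2 ^ (Ideal.absNorm v.asIdeal ^ m) = P.2 ∧
      P.2 ^ 2 = aeval P.1 (f.map (Ideal.Quotient.mk v.asIdeal))}

/-- The trace of the `m`-th power of the Frobenius at `v` on the first cohomology of the curve. -/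
noncomputable def trace (f : (𝓞 K)[X]) (v : HeightOneSpectrum (𝓞 K)) (m : ℕ) : ℤ :=
  (Ideal.absNorm v.asIdeal : ℤ) ^ m - points f v m

/-- The Euler factor `det(1 - Frob_v q_v^{-s})⁻¹ = exp(∑_{m ≥ 1} tr(Frob_v ^ m) q_v^{-m s} / m)`. -/
noncomputable def eulerFactor (f : (𝓞 K)[X]) (v : HeightOneSpectrum (𝓞 K)) (s : ℂ) : ℂ :=
  Complex.exp (∑' m : ℕ, (trace f v (m + 1) : ℂ) *
    ((Ideal.absNorm v.asIdeal : ℂ) ^ (-s)) ^ (m + 1) / (m + 1))

/-- The L-function of the Jacobian of the curve `y² = f(x)` (for `g = 1`: of this elliptic curve): the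
product of the Euler factors at the primes of good reduction of this equation. -/
noncomputable def LFun (f : (𝓞 K)[X]) (s : ℂ) : ℂ :=
  ∏' v : {v : HeightOneSpectrum (𝓞 K) // IsGood f v}, eulerFactor f v.1 s

end analytic

section mean

open Classical in
/-- `F` is a Følner sequence of the abelian group `A`: a sequence of nonempty finite sets such that for
every `a` the proportion of the `x` in `F j` for which `x + a` is not in `F j` tends to `0`. -/
def IsFolner {A : Type} [AddCommGroup A] (F : ℕ → Finset A) : Prop :=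
  (∀ j, (F j).Nonempty) ∧ ∀ a : A, Tendsto (fun j =>
    (((F j).filter fun x => x + a ∉ F j).card : ℝ) / ((F j).card : ℝ)) atTop (𝓝 0)

/-- `μ` is the mean value of `φ`: the limit of the averages over `F j`, for every Følner sequence
`F`. -/
def IsMean {A : Type} [AddCommGroup A] (φ : A → ℂ) (μ : ℂ) : Prop :=
  ∀ F : ℕ → Finset A, IsFolner F →
    Tendsto (fun j => (∑ x ∈ F j, φ x) / ((F j).card : ℂ)) atTop (𝓝 μ)

end mean

/-- **The moments.** Let `K` be a number field, `n + 2 + r = 2 g + 1`, `a` a monic polynomial of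
degree `2 g + 1` over the integers of `K`, and `a(α_j) = y_j²`, `1 ≤ j ≤ r`, with different `α_j` and
with `y_j ≠ 0`. (For `g = 1`, `r = 0` the family is the family of all `y² = x³ + h_2 x² + h_1 x + h_0`.)

(1) The polynomials `f_h = a + (h_0 + … + h_{n+1} X ^ (n+1)) ∏ (X - α_j)` are all the monic polynomials of
degree `2 g + 1` over the integers of `K` with `f(α_j) = y_j²` for all `j`.

(2) The product of the Euler factors of `f_h` converges for `Re s > 3/2`, and its value is not zero.

(3) Let `k` be an integer. There is a function `B`, meromorphic in `Re s > 5/6` and analytic in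
`Re s ≥ 1`, with `B(1) ≠ 0`, such that for `Re s > 3/2` the mean value over all `h` of the `k`-th power
of the L-function of `y² = f_h(x)` is `(s - 1) ^ (k r - k (k - 1) / 2) B(s)`. If `r = 0` then `B` is
analytic in `Re s > 5/6`.

(4) There are Følner sequences for the family. -/
theorem result (K : Type) [Field K] [NumberField K] (g r n : ℕ) (hn : n + 2 + r = 2 * g + 1)
    (a : (𝓞 K)[X]) (ha : a.Monic) (hd : a.natDegree = 2 * g + 1) (α y : Fin r → 𝓞 K)
    (hα : Function.Injective α) (hy : ∀ j, a.eval (α j) = y j ^ 2) (hy0 : ∀ j, y j ≠ 0) :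
    (∀ f : (𝓞 K)[X], (f.Monic ∧ f.natDegree = 2 * g + 1 ∧ ∀ j, f.eval (α j) = y j ^ 2) ↔
      ∃ h : Fin (n + 2) → 𝓞 K, f = member a α h) ∧
    (∀ (h : Fin (n + 2) → 𝓞 K) (s : ℂ), 3 / 2 < s.re →
      Multipliable (fun v : {v : HeightOneSpectrum (𝓞 K) // IsGood (member a α h) v} =>
        eulerFactor (member a α h) v.1 s) ∧ LFun (member a α h) s ≠ 0) ∧
    (∀ k : ℤ, ∃ B : ℂ → ℂ,
      (∀ s : ℂ, 3 / 2 < s.re →
        IsMean (fun h : Fin (n + 2) → 𝓞 K => LFun (member a α h) s ^ k)
          ((s - 1) ^ (k * r - k * (k - 1) / 2) * B s)) ∧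
      MeromorphicOn B {s | (5 / 6 : ℝ) < s.re} ∧
      (∀ s : ℂ, 1 ≤ s.re → AnalyticAt ℂ B s) ∧ B 1 ≠ 0 ∧
      (r = 0 → ∀ s : ℂ, 5 / 6 < s.re → AnalyticAt ℂ B s)) ∧
    ∃ F : ℕ → Finset (Fin (n + 2) → 𝓞 K), IsFolner F := by
  have hL : ∀ (h : Fin (n + 2) → 𝓞 K) (s : ℂ), 3 / 2 < s.re →
      HasProd (fun v : {v : HeightOneSpectrum (𝓞 K) // IsGood (member a α h) v} =>
        eulerFactor (member a α h) v.1 s)
        (Complex.exp (Pool.Agent.W5h26.AO.Lam (Pool.Agent.W5h26.AO.mem a α h) s)) := by
    intro h s hs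
    obtain ⟨e1, e2⟩ := Pool.Agent.W5h26.AO.mem_monic ha hd hn.le α h
    exact Pool.Agent.W5h26.AO.euler e1 e2 hs
  have hL2 : ∀ (h : Fin (n + 2) → 𝓞 K) (s : ℂ), 3 / 2 < s.re → LFun (member a α h) s =
      Complex.exp (Pool.Agent.W5h26.AO.Lam (Pool.Agent.W5h26.AO.mem a α h) s) :=
    fun h s hs => (hL h s hs).tprod_eq
  refine ⟨fun f => ?_, fun h s hs => ⟨(hL h s hs).multipliable, ?_⟩, fun k => ?_, ?_⟩
  · have h1 := Pool.Agent.W5h26.AO.mem_iff (f := f) ha hd hn hα
    simp only [hy] at h1
    exact h1
  · rw [hL2 h s hs]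
    exact Complex.exp_ne_zero _
  · obtain ⟨B, h1, h2, h3, h4, h5⟩ := Pool.Agent.W5h26.AO.moment ha hd hn hα hy hy0 k
    refine ⟨B, fun s hs F hF => ?_, h1, h2, h3, h4⟩
    refine (h5 s hs F ⟨hF.1, hF.2⟩).congr fun j => ?_
    unfold Pool.Agent.W5h26.AO.mean
    congr 1
    refine Finset.sum_congr rfl fun h _ => ?_
    simp only
    rw [hL2 h s hs, ← Complex.exp_int_mul]
  · obtain ⟨F, hF⟩ := Pool.Agent.W5h26.AO.exists_folner (Fin (n + 2) → 𝓞 K)
    exact ⟨F, hF.nonempty, hF.shift⟩

end Pool.Agent.Results.MP_0d9be2_nt.MomentsContinue
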