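import Pool.Agent.W5h88.NB.Den
import Pool.Agent.W5h26.AO.Box
import Pool.Agent.W5h26.AO.Chr

/-!
# Natural boundaries for the closure of the L-functions of the elliptic curves over a number field

Let `K` be a number field. For a single elliptic curve `E` over `K` the L-function is known only for
`Re s > 3/2`, where the Euler product converges, unless `K` is totally real or a CM field. We study the
L-functions of all the curves `y² = x³ + h_2 x² + h_1 x + h_0` over the integers of `K` together (and
more generally of all the curves `y² = f(x)`, `f` monic of degree `2 g + 1`, through `r ≤ 2 g - 1` given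
integral points). The L-function depends on the residues of the equation only, and it is defined at every
point `ω` of the compact space `Param` of the systems of residues at all the primes of `K`.

* The L-functions of the curves have a limit law: the law of the L-function at a random `ω`.
* For every `ω` the L-function is a limit, uniformly in `Re s ≥ σ` for every `σ > 3/2`, of L-functions of
  curves over `K`.
* For almost every `ω` the L-function continues to an analytic function without zeros in `Re s > 1`, and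
  the line `Re s = 1` is its natural boundary.
* For every `ω` outside a set of the first category the line `Re s = 3/2` is the natural boundary.

So there is no proof of the continuation by an argument which applies to all `ω`, nor one with bounds:

* for every degree `d`, bound `B` and disc with centre in `Re s > 3/2` which meets `Re s < 1`, the set of
  the curves over `K` whose L-function is `F / P` in the disc with an analytic function `F` bounded by
  `B` and a normalised polynomial `P` of degree `≤ d` has density zero,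
* for every `d`, `B` and disc with centre in `Re s > 3/2` which meets `Re s < 3/2` there is a curve over
  `K` (with arbitrary prescribed residues at finitely many primes) whose L-function is not of this form.
-/

set_option autoImplicit false

namespace Pool.Agent.Results.MP_0d9be2_nt.NaturalBoundaries

open NumberField IsDedekindDomain Polynomial Filter Topology MeasureTheory

/-- The polynomial `a + (h_0 + h_1 X + … + h_{n-1} X ^ (n-1)) ∏ (X - α_j)`. -/
noncomputable def member {R : Type} [CommRing R] {r n : ℕ} (a : R[X]) (α : Fin r → R)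
    (h : Fin n → R) : R[X] :=
  a + (∑ i : Fin n, C (h i) * X ^ (i : ℕ)) * ∏ j, (X - C (α j))

section curves

variable {K : Type} [Field K] [NumberField K]

/-- The residue field of the prime `v`. -/
noncomputable instance residueField (v : HeightOneSpectrum (𝓞 K)) : Field (𝓞 K ⧸ v.asIdeal) :=
  Pool.Agent.R409.RA.fieldQuot v

/-- The residue fields carry the discrete topology. -/
instance residueTop (v : HeightOneSpectrum (𝓞 K)) : TopologicalSpace (𝓞 K ⧸ v.asIdeal) := ⊥

/-- All the subsets of the residue fields are measurable. -/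
instance residueMeas (v : HeightOneSpectrum (𝓞 K)) : MeasurableSpace (𝓞 K ⧸ v.asIdeal) := ⊤

variable (K) in
/-- A system of residue polynomials: a polynomial over the residue field of `v` for every prime `v`
of `K`. -/
abbrev System : Type := (v : HeightOneSpectrum (𝓞 K)) → (𝓞 K ⧸ v.asIdeal)[X]

/-- The system of the reductions of a polynomial over the integers of `K`. -/
noncomputable def reductions (f : (𝓞 K)[X]) : System K :=
  fun v => f.map (Ideal.Quotient.mk v.asIdeal)

/-- The curve `y² = F_v(x)` is smooth: the residue characteristic is odd and `F_v` is separable. -/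
def IsGood (F : System K) (v : HeightOneSpectrum (𝓞 K)) : Prop :=
  (2 : 𝓞 K) ∉ v.asIdeal ∧ (F v).Separable

/-- The number of the points with coordinates in the field with `q_v ^ m` elements of the affine curve
`y² = F_v(x)` over the residue field of `v`, which has `q_v` elements. -/
noncomputable def points (F : System K) (v : HeightOneSpectrum (𝓞 K)) (m : ℕ) : ℕ :=
  Nat.card {P : AlgebraicClosure (𝓞 K ⧸ v.asIdeal) × AlgebraicClosure (𝓞 K ⧸ v.asIdeal) //
    P.1 ^ (Ideal.absNorm v.asIdeal ^ m) = P.1 ∧ P.2 ^ (Ideal.absNorm v.asIdeal ^ m) = P.2 ∧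
      P.2 ^ 2 = aeval P.1 (F v)}

/-- The trace of the `m`-th power of the Frobenius at `v` on the first cohomology of the curve. -/
noncomputable def trace (F : System K) (v : HeightOneSpectrum (𝓞 K)) (m : ℕ) : ℤ :=
  (Ideal.absNorm v.asIdeal : ℤ) ^ m - points F v m

/-- The Euler factor `det(1 - Frob_v q_v^{-s})⁻¹ = exp(∑_{m ≥ 1} tr(Frob_v ^ m) q_v^{-m s} / m)`. -/
noncomputable def eulerFactor (F : System K) (v : HeightOneSpectrum (𝓞 K)) (s : ℂ) : ℂ :=
  Complex.exp (∑' m : ℕ, (trace F v (m + 1) : ℂ) *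
    ((Ideal.absNorm v.asIdeal : ℂ) ^ (-s)) ^ (m + 1) / (m + 1))

/-- The L-function of a system of residue polynomials. The L-function `LFun (reductions f)` is the
L-function of the Jacobian of the curve `y² = f(x)` over `K` (for `g = 1`: of this elliptic curve), with
the Euler factors at the primes of good reduction of this equation. -/
noncomputable def LFun (F : System K) (s : ℂ) : ℂ :=
  ∏' v : {v : HeightOneSpectrum (𝓞 K) // IsGood F v}, eulerFactor F v.1 s

variable (K) in
/-- The space of parameters: a vector of length `n` over the residue field of `v` for every prime `v` of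
`K`, with the product topology of the discrete topologies. -/
abbrev Param (n : ℕ) : Type := (v : HeightOneSpectrum (𝓞 K)) → Fin n → 𝓞 K ⧸ v.asIdeal

variable (K) in
/-- The product of the uniform probability measures. -/
noncomputable def prob (n : ℕ) : Measure (Param K n) :=
  Measure.infinitePi fun _ => ProbabilityTheory.uniformOn Set.univ

/-- The parameters with coordinates in the integers of `K`. -/
def integral {n : ℕ} (h : Fin n → 𝓞 K) : Param K n := fun v i => Ideal.Quotient.mk v.asIdeal (h i)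

/-- The system of the residue polynomials `a + (ω_{v,0} + … + ω_{v,n-1} X ^ (n-1)) ∏ (X - α_j)`. -/
noncomputable def memberAt {r n : ℕ} (a : (𝓞 K)[X]) (α : Fin r → 𝓞 K) (ω : Param K n) : System K :=
  fun v => member (a.map (Ideal.Quotient.mk v.asIdeal)) (fun j => Ideal.Quotient.mk v.asIdeal (α j))
    (ω v)

end curves

section functions

/-- The function `L` on `Re s > b` has the natural boundary `Re s = b`: it has no meromorphic
continuation to a neighbourhood of any point of this line. -/
def NaturalBoundary (b : ℝ) (L : ℂ → ℂ) : Prop :=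
  ∀ t : ℝ, ¬ ∃ H : ℂ → ℂ, MeromorphicAt H ((b : ℂ) + t * Complex.I) ∧
    ∀ᶠ s in 𝓝 ((b : ℂ) + t * Complex.I), b < s.re → H s = L s

/-- The function `L` on `Re s > 3/2` is `F / P` in the disc with centre `c` and radius `ρ`, with an
analytic function `F`, `|F| ≤ B`, and a polynomial `P` of degree at most `d` whose largest coefficient
has absolute value `1`. -/
def BoundedContinuation (d : ℕ) (B : ℝ) (c : ℂ) (ρ : ℝ) (L : ℂ → ℂ) : Prop :=
  ∃ (p : Fin (d + 1) → ℂ) (F : ℂ → ℂ), (∀ i, ‖p i‖ ≤ 1) ∧ (∃ i, ‖p i‖ = 1) ∧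
    DifferentiableOn ℂ F (Metric.ball c ρ) ∧ (∀ s ∈ Metric.ball c ρ, ‖F s‖ ≤ B) ∧
    ∀ s ∈ Metric.ball c ρ, 3 / 2 < s.re → (∑ i, p i * s ^ (i : ℕ)) * L s = F s

end functions

section mean

open Classical in
/-- `F` is a Følner sequence of the abelian group `A`: a sequence of nonempty finite sets such that for
every `a` the proportion of the `x` in `F j` for which `x + a` is not in `F j` tends to `0`. -/
def IsFolner {A : Type} [AddCommGroup A] (F : ℕ → Finset A) : Prop :=
  (∀ j, (F j).Nonempty) ∧ ∀ a : A, Tendsto (fun j =>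
    (((F j).filter fun x => x + a ∉ F j).card : ℝ) / ((F j).card : ℝ)) atTop (𝓝 0)

/-- `μ` is the mean value of `φ`: the limit of the averages over `F j`, for every Følner sequence
`F`. -/
def IsMean {A : Type} [AddCommGroup A] (φ : A → ℂ) (μ : ℂ) : Prop :=
  ∀ F : ℕ → Finset A, IsFolner F →
    Tendsto (fun j => (∑ x ∈ F j, φ x) / ((F j).card : ℂ)) atTop (𝓝 μ)

end mean

open Classical in
/-- **Natural boundaries.** Let `K` be a number field, `n + 2 + r = 2 g + 1`, `a` a monic polynomial of
degree `2 g + 1` over the integers of `K`, and `a(α_j) = y_j²`, `1 ≤ j ≤ r`, with different `α_j` and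
with `y_j ≠ 0`. (For `g = 1`, `r = 0` the family is the family of all `y² = x³ + h_2 x² + h_1 x + h_0`.)

(1) The polynomials `f_h = a + (h_0 + … + h_{n+1} X ^ (n+1)) ∏ (X - α_j)` are all the monic polynomials of
degree `2 g + 1` over the integers of `K` with `f(α_j) = y_j²` for all `j`; the reductions of `f_h` are the
system of residue polynomials at the integral point `h` of the space of parameters.

(2) At every point `ω` of the space of parameters the product of the Euler factors converges for
`Re s > 3/2`, and its value `L_ω(s)` is not zero.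

(3) Limit law: for every bounded function `Φ` of the L-function, uniformly continuous for the uniform
distance on a half plane `Re s ≥ σ > 3/2`, the mean value of `Φ(L(f_h, ·))` over all `h` is the expected
value of `Φ(L_ω)`.

(4) Density: every `L_ω` is the limit, uniformly in `Re s ≥ σ` for every `σ > 3/2`, of L-functions of
curves `y² = f_h(x)` over `K`, `f_h` separable, where the residues of `h` at finitely many given primes
are those of `ω`.

(5) For almost all `ω` the function `L_ω` continues to an analytic function without zeros in `Re s > 1`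
with the natural boundary `Re s = 1`.

(6) For all `ω` outside a set of the first category `L_ω` has the natural boundary `Re s = 3/2`.

(7) For all `d`, `B` and all discs with centre in `Re s > 3/2` which meet `Re s < 1` the set of the `h`
for which the L-function of `f_h` is `F / P` in the disc, `F` analytic, `|F| ≤ B`, `P` a normalised
polynomial of degree `≤ d`, has density zero.

(8) For all `d`, `B` and all discs with centre in `Re s > 3/2` which meet `Re s < 3/2` there is a curve
`y² = f_h(x)` over `K`, `f_h` separable, with prescribed residues of `h` at finitely many primes, whose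
L-function is not of this form.

(9) There are Følner sequences for the family. -/
theorem result (K : Type) [Field K] [NumberField K] (g r n : ℕ) (hn : n + 2 + r = 2 * g + 1)
    (a : (𝓞 K)[X]) (ha : a.Monic) (hd : a.natDegree = 2 * g + 1) (α y : Fin r → 𝓞 K)
    (hα : Function.Injective α) (hy : ∀ j, a.eval (α j) = y j ^ 2) (hy0 : ∀ j, y j ≠ 0) :
    ((∀ f : (𝓞 K)[X], (f.Monic ∧ f.natDegree = 2 * g + 1 ∧ ∀ j, f.eval (α j) = y j ^ 2) ↔
      ∃ h : Fin (n + 2) → 𝓞 K, f = member a α h) ∧
      ∀ h : Fin (n + 2) → 𝓞 K, reductions (member a α h) = memberAt a α (integral h)) ∧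
    (∀ (ω : Param K (n + 2)) (s : ℂ), 3 / 2 < s.re →
      Multipliable (fun v : {v : HeightOneSpectrum (𝓞 K) // IsGood (memberAt a α ω) v} =>
        eulerFactor (memberAt a α ω) v.1 s) ∧ LFun (memberAt a α ω) s ≠ 0) ∧
    (∀ (σ : ℝ) (Φ : (ℂ → ℂ) → ℂ), 3 / 2 < σ → (∃ B : ℝ, ∀ F, ‖Φ F‖ ≤ B) →
      (∀ ε : ℝ, 0 < ε → ∃ δ : ℝ, 0 < δ ∧ ∀ F G : ℂ → ℂ,
        (∀ s : ℂ, σ ≤ s.re → ‖F s - G s‖ ≤ δ) → ‖Φ F - Φ G‖ ≤ ε) →
      Integrable (fun ω => Φ (LFun (memberAt a α ω))) (prob K (n + 2)) ∧
      IsMean (fun h : Fin (n + 2) → 𝓞 K => Φ (LFun (reductions (member a α h))))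
        (∫ ω, Φ (LFun (memberAt a α ω)) ∂(prob K (n + 2)))) ∧
    (∀ (ω : Param K (n + 2)) (S : Finset (HeightOneSpectrum (𝓞 K))) (σ ε : ℝ), 3 / 2 < σ → 0 < ε →
      ∃ h : Fin (n + 2) → 𝓞 K, ((member a α h).map (algebraMap (𝓞 K) K)).Separable ∧
        (∀ v ∈ S, integral h v = ω v) ∧
        ∀ s : ℂ, σ ≤ s.re → ‖LFun (reductions (member a α h)) s - LFun (memberAt a α ω) s‖ ≤ ε) ∧
    (∀ᵐ ω ∂(prob K (n + 2)), ∃ L : ℂ → ℂ, DifferentiableOn ℂ L {s | (1 : ℝ) < s.re} ∧
      (∀ s : ℂ, 1 < s.re → L s ≠ 0) ∧ (∀ s : ℂ, 3 / 2 < s.re → L s = LFun (memberAt a α ω) s) ∧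
      NaturalBoundary 1 L) ∧
    (∀ᶠ ω in residual (Param K (n + 2)), NaturalBoundary (3 / 2) (LFun (memberAt a α ω))) ∧
    (∀ (d : ℕ) (B : ℝ) (c : ℂ) (ρ : ℝ), 3 / 2 < c.re → c.re - ρ < 1 →
      IsMean (fun h : Fin (n + 2) → 𝓞 K =>
        if BoundedContinuation d B c ρ (LFun (reductions (member a α h))) then 1 else 0) 0) ∧
    (∀ (d : ℕ) (B : ℝ) (c : ℂ) (ρ : ℝ), 3 / 2 < c.re → c.re - ρ < 3 / 2 →
      ∀ (h₀ : Fin (n + 2) → 𝓞 K) (S : Finset (HeightOneSpectrum (𝓞 K))),
      ∃ h : Fin (n + 2) → 𝓞 K, ((member a α h).map (algebraMap (𝓞 K) K)).Separable ∧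
        (∀ v ∈ S, integral h v = integral h₀ v) ∧
        ¬ BoundedContinuation d B c ρ (LFun (reductions (member a α h)))) ∧
    ∃ F : ℕ → Finset (Fin (n + 2) → 𝓞 K), IsFolner F := by
  obtain ⟨M, hq, hτ, -⟩ := Pool.Agent.W5h88.NB.exists_mdl ha hd hn hα hy hy0
  have hg : 1 ≤ g := by omega
  have hg' : (0 : ℝ) < (16 * (g : ℝ))⁻¹ := by
    have : (1 : ℝ) ≤ g := by exact_mod_cast hg
    positivity
  have hcont : ∀ v m, Continuous (M.τ v m) := by
    intro v m
    have h1 : M.τ v m = fun ω : Param K (n + 2) => Pool.Agent.W5h26.AO.tt a α v (ω v) m := by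
      funext ω
      exact hτ v m ω
    rw [h1]
    exact (continuous_of_discreteTopology (f := fun h : Fin (n + 2) → 𝓞 K ⧸ v.asIdeal =>
      Pool.Agent.W5h26.AO.tt a α v h m)).comp (continuous_apply v)
  have hext := Pool.Agent.W5h88.NB.ext_mdl ha hd hn hα hy hy0 M hτ
  have hL : ∀ (ω : Param K (n + 2)) (s : ℂ), 3 / 2 < s.re →
      HasProd (fun v : {v : HeightOneSpectrum (𝓞 K) // IsGood (memberAt a α ω) v} =>
        eulerFactor (memberAt a α ω) v.1 s) (Pool.Agent.W5h88.NB.LF M ω s) :=
    fun ω s hs => Pool.Agent.W5h88.NB.euler_pt M hq hτ ω hs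
  have hL2 : ∀ (ω : Param K (n + 2)) (s : ℂ), 3 / 2 < s.re → LFun (memberAt a α ω) s =
      Pool.Agent.W5h88.NB.LF M ω s := fun ω s hs => (hL ω s hs).tprod_eq
  have hred : ∀ h : Fin (n + 2) → 𝓞 K, reductions (member a α h) = memberAt a α (integral h) := by
    intro h
    funext v
    exact Pool.Agent.W5h26.AO.red_mem v h
  have hi : ∀ h : Fin (n + 2) → 𝓞 K, integral h = fun v => Pool.Agent.W5h26.AO.rho v (n + 2) h :=
    fun h => rfl
  have hΦe : ∀ (σ : ℝ) (Φ : (ℂ → ℂ) → ℂ), 3 / 2 < σ → (∀ ε : ℝ, 0 < ε → ∃ δ : ℝ, 0 < δ ∧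
      ∀ F G : ℂ → ℂ, (∀ s : ℂ, σ ≤ s.re → ‖F s - G s‖ ≤ δ) → ‖Φ F - Φ G‖ ≤ ε) →
      ∀ ω : Param K (n + 2), Φ (LFun (memberAt a α ω)) = Φ (Pool.Agent.W5h88.NB.LF M ω) := by
    intro σ Φ hσ hΦ ω
    rw [← sub_eq_zero, ← norm_eq_zero]
    refine le_antisymm (le_of_forall_pos_le_add fun ε hε => ?_) (norm_nonneg _)
    obtain ⟨δ, hδ, hδ'⟩ := hΦ ε hε
    rw [zero_add]
    refine hδ' _ _ fun s hs => ?_
    rw [hL2 ω s (hσ.trans_le hs), sub_self, norm_zero]
    exact hδ.le
  have hBC : ∀ (d : ℕ) (B : ℝ) (c : ℂ) (ρ : ℝ) (ω : Param K (n + 2)),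
      BoundedContinuation d B c ρ (LFun (memberAt a α ω)) ↔
        Pool.Agent.W5h88.NB.BMC d B c ρ (Pool.Agent.W5h88.NB.LF M ω) := by
    intro d B c ρ ω
    have hp : ∀ p : Fin (d + 1) → ℂ, ((∀ i, ‖p i‖ ≤ 1) ∧ ∃ i, ‖p i‖ = 1) ↔ ‖p‖ = 1 := by
      intro p
      constructor
      · rintro ⟨h1, i, h2⟩
        refine le_antisymm ((pi_norm_le_iff_of_nonneg zero_le_one).2 h1) ?_
        rw [← h2]
        exact norm_le_pi_norm p i
      · intro h
        refine ⟨fun i => h ▸ norm_le_pi_norm p i, ?_⟩
        by_contra hcon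
        push Not at hcon
        have h1 : ∀ i, ‖p i‖ < 1 := fun i => lt_of_le_of_ne (h ▸ norm_le_pi_norm p i) (hcon i)
        have h2 := (pi_norm_lt_iff one_pos).2 h1
        exact absurd h h2.ne
    constructor
    · rintro ⟨p, F, h1, h2, h3, h4, h5⟩
      refine ⟨p, F, (hp p).1 ⟨h1, h2⟩, h3, h4, fun s hs hs' => ?_⟩
      rw [← hL2 ω s hs']
      exact h5 s hs hs'
    · rintro ⟨p, F, h1, h3, h4, h5⟩
      refine ⟨p, F, ((hp p).2 h1).1, ((hp p).2 h1).2, h3, h4, fun s hs hs' => ?_⟩
      rw [hL2 ω s hs']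
      exact h5 s hs hs'
  refine ⟨⟨fun f => ?_, hred⟩, fun ω s hs => ⟨(hL ω s hs).multipliable, ?_⟩, ?_, ?_, ?_, ?_, ?_, ?_,
    ?_⟩
  · have h1 := Pool.Agent.W5h26.AO.mem_iff (f := f) ha hd hn hα
    simp only [hy] at h1
    exact h1
  · rw [hL2 ω s hs]
    exact Complex.exp_ne_zero _
  · rintro σ Φ hσ ⟨B, hB⟩ hΦ
    have h1 := hΦe σ Φ hσ hΦ
    simp only [hred, h1]
    refine ⟨Pool.Agent.W5h88.NB.law_int M hτ hσ Φ hB hΦ, fun F hF => ?_⟩
    exact Pool.Agent.W5h88.NB.law M hτ hσ Φ hB hΦ ⟨hF.1, hF.2⟩
  · intro ω S σ ε hσ hε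
    obtain ⟨h, h1, h2, h3⟩ := Pool.Agent.W5h88.NB.dense M ha hd hn.le hτ
      ((Pool.Agent.W5h88.NB.signs ha hd hn hα hy hy0).mono fun v hv => by
        obtain ⟨h, hh⟩ := hv.1
        exact ⟨h, (hg'.trans_le hh).ne'⟩) hσ hε ω S
    refine ⟨h, h1, h2, fun s hs => ?_⟩
    rw [hred, hL2 _ s (hσ.trans_le hs), hL2 _ s (hσ.trans_le hs)]
    exact h3 s hs
  · filter_upwards [Pool.Agent.W5h88.NB.nb_ae M] with ω hω
    obtain ⟨L, h1, h2, h3, h4⟩ := hω
    exact ⟨L, h1, h2, fun s hs => by rw [h3 s hs, hL2 ω s hs], h4⟩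
  · filter_upwards [Pool.Agent.W5h88.NB.nb_res M hcont hg' hext] with ω hω t hcon
    obtain ⟨H, h1, h2⟩ := hcon
    refine hω t ⟨H, h1, ?_⟩
    filter_upwards [h2] with s hs hs'
    rw [hs hs', hL2 ω s hs']
  · intro d B c ρ hc hρ F hF
    simp only [hred, hBC]
    exact Pool.Agent.W5h88.NB.dens_zero M hτ d B hc hρ ⟨hF.1, hF.2⟩
  · intro d B c ρ hc hρ h₀ S
    obtain ⟨h, h1, h2, h3⟩ := Pool.Agent.W5h88.NB.exists_bad M ha hd hn.le hτ
      ((Pool.Agent.W5h88.NB.signs ha hd hn hα hy hy0).mono fun v hv => by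
        obtain ⟨h, hh⟩ := hv.1
        exact ⟨h, (hg'.trans_le hh).ne'⟩) hcont hg' hext d B hc hρ h₀ S
    refine ⟨h, h1, h2, ?_⟩
    rw [hred, hBC]
    exact h3
  · obtain ⟨F, hF⟩ := Pool.Agent.W5h26.AO.exists_folner (Fin (n + 2) → 𝓞 K)
    exact ⟨F, hF.nonempty, hF.shift⟩

end Pool.Agent.Results.MP_0d9be2_nt.NaturalBoundaries
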