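import Pool.Agent.W5h26.EP.Final

/-!
# The L-series of all elliptic curves over a number field on the edge of convergence

On the edge `Re s = 3/2` of the half-plane of absolute convergence the L-series of every elliptic
curve over a number field `K`, and its inverse, converge in the mean of every order `p < 1/2`,
uniformly over all windows of length one and over all elliptic curves over `K`, and the boundary
functions are almost periodic in the sense of Stepanov with common almost periods.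
-/

set_option autoImplicit false

namespace Pool.Agent.Results.MP_0d9be2_nt.StepanovEdge

open NumberField IsDedekindDomain Filter Topology MeasureTheory
open scoped ENNReal

/-- `W v` is, for every finite place `v`, an integral model of `E` with discriminant minimal at
`v`. -/
def MinimalModels {K : Type} [Field K] [NumberField K] (E : WeierstrassCurve K)
    (W : HeightOneSpectrum (𝓞 K) → WeierstrassCurve (𝓞 K)) : Prop :=
  ∀ v : HeightOneSpectrum (𝓞 K),
    (∃ C : WeierstrassCurve.VariableChange K, C • (W v).map (algebraMap (𝓞 K) K) = E) ∧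
    ∀ W' : WeierstrassCurve (𝓞 K),
      (∃ C : WeierstrassCurve.VariableChange K, C • W'.map (algebraMap (𝓞 K) K) = E) →
      ∀ n : ℕ, (W v).Δ ∈ v.asIdeal ^ n → W'.Δ ∈ v.asIdeal ^ n

open Classical in
/-- The Euler factor at `v`, `(1 - a_v Nv^{-s} + Nv^{1-2s})⁻¹` if the reduction at `v` is good and
`(1 - a_v Nv^{-s})⁻¹` if it is bad, where `a_v` is `Nv` minus the number of affine points of the
reduction of `W v`. -/
noncomputable def localFactor {K : Type} [Field K] [NumberField K]
    (W : HeightOneSpectrum (𝓞 K) → WeierstrassCurve (𝓞 K)) (v : HeightOneSpectrum (𝓞 K))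
    (s : ℂ) : ℂ :=
  (1 - ((Ideal.absNorm v.asIdeal : ℂ)
        - (Nat.card {xy : (𝓞 K ⧸ v.asIdeal) × (𝓞 K ⧸ v.asIdeal) //
            ((W v).map (Ideal.Quotient.mk v.asIdeal)).toAffine.Equation xy.1 xy.2} : ℂ))
        * (Ideal.absNorm v.asIdeal : ℂ) ^ (-s)
    + (if (W v).Δ ∈ v.asIdeal then 0 else (Ideal.absNorm v.asIdeal : ℂ))
        * (Ideal.absNorm v.asIdeal : ℂ) ^ (-2 * s))⁻¹

/-- The `L`-series, as the Euler product over all finite places. -/
noncomputable def LSeries {K : Type} [Field K] [NumberField K]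
    (W : HeightOneSpectrum (𝓞 K) → WeierstrassCurve (𝓞 K)) (s : ℂ) : ℂ :=
  ∏' v : HeightOneSpectrum (𝓞 K), localFactor W v s

/-- The point `3/2 + σ + it`. -/
noncomputable def point (σ t : ℝ) : ℂ := ((3 / 2 + σ : ℝ) : ℂ) + (t : ℂ) * Complex.I

/-- `l` is the boundary function of the `L`-series on the edge: for almost all real `t` the number
`l t` is not `0` and `L(E, 3/2 + σ + it)` tends to `l t` as `σ` decreases to `0`. -/
def IsBoundary {K : Type} [Field K] [NumberField K]
    (W : HeightOneSpectrum (𝓞 K) → WeierstrassCurve (𝓞 K)) (l : ℝ → ℂ) : Prop :=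
  ∀ᵐ t : ℝ, l t ≠ 0 ∧ Tendsto (fun σ : ℝ => LSeries W (point σ t)) (𝓝[>] 0) (𝓝 (l t))

/-- The mean `∫ |f(t)|^p dt` over the window `[t₀, t₀ + 1]`. -/
noncomputable def mean (p : ℝ) (f : ℝ → ℂ) (t₀ : ℝ) : ℝ≥0∞ :=
  ∫⁻ t in Set.Icc t₀ (t₀ + 1), ‖f t‖ₑ ^ p

/-- Relatively dense sets of real numbers. -/
def RelativelyDense (P : Set ℝ) : Prop := ∃ L : ℝ, ∀ x : ℝ, ∃ τ ∈ P, x ≤ τ ∧ τ ≤ x + L

/-- **Boundary values in the mean.**  Let `K` be a number field and `0 < p < 1/2`.

* Every elliptic curve over `K` has a measurable boundary function.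
* There is a constant `C`, the same for all elliptic curves over `K`, which bounds the means of
  order `p` of `L(E, 3/2 + σ + it)`, of its inverse, of the boundary function and of its inverse
  over all windows of length one, for `0 < σ ≤ 1`.
* For every `ε > 0` there are `δ > 0` and a relatively dense set `P`, the same for all elliptic
  curves over `K`, such that over every window of length one the mean of order `p` of the difference
  between `L(E, 3/2 + σ + it)` and the boundary function is at most `ε` for `0 < σ < δ`, the same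
  holds for the inverses, and every `τ ∈ P` is an almost period in the sense of Stepanov, of order
  `p` and up to `ε`, of the boundary function and of its inverse. -/
theorem result (K : Type) [Field K] [NumberField K] (p : ℝ) (hp : 0 < p) (hp' : p < 1 / 2) :
    (∀ (E : WeierstrassCurve K) [E.IsElliptic] (W : HeightOneSpectrum (𝓞 K) → WeierstrassCurve (𝓞 K)),
      MinimalModels E W → ∃ l : ℝ → ℂ, Measurable l ∧ IsBoundary W l) ∧
    (∃ C : ℝ, ∀ (E : WeierstrassCurve K) [E.IsElliptic]
      (W : HeightOneSpectrum (𝓞 K) → WeierstrassCurve (𝓞 K)), MinimalModels E W →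
      ∀ l : ℝ → ℂ, IsBoundary W l → ∀ t₀ : ℝ,
        (∀ σ : ℝ, 0 < σ → σ ≤ 1 →
          mean p (fun t => LSeries W (point σ t)) t₀ ≤ ENNReal.ofReal C ∧
          mean p (fun t => (LSeries W (point σ t))⁻¹) t₀ ≤ ENNReal.ofReal C) ∧
        mean p l t₀ ≤ ENNReal.ofReal C ∧ mean p (fun t => (l t)⁻¹) t₀ ≤ ENNReal.ofReal C) ∧
    ∀ ε : ℝ, 0 < ε → ∃ δ : ℝ, 0 < δ ∧ ∃ P : Set ℝ, RelativelyDense P ∧
      ∀ (E : WeierstrassCurve K) [E.IsElliptic]
      (W : HeightOneSpectrum (𝓞 K) → WeierstrassCurve (𝓞 K)), MinimalModels E W →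
      ∀ l : ℝ → ℂ, IsBoundary W l →
        (∀ σ : ℝ, 0 < σ → σ < δ → ∀ t₀ : ℝ,
          mean p (fun t => LSeries W (point σ t) - l t) t₀ ≤ ENNReal.ofReal ε ∧
          mean p (fun t => (LSeries W (point σ t))⁻¹ - (l t)⁻¹) t₀ ≤ ENNReal.ofReal ε) ∧
        ∀ τ ∈ P, ∀ t₀ : ℝ,
          mean p (fun t => l (t + τ) - l t) t₀ ≤ ENNReal.ofReal ε ∧
          mean p (fun t => (l (t + τ))⁻¹ - (l t)⁻¹) t₀ ≤ ENNReal.ofReal ε := by
  have hlf : ∀ (W : HeightOneSpectrum (𝓞 K) → WeierstrassCurve (𝓞 K)) (σ t : ℝ),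
      LSeries W (point σ t) = ∏' v, Pool.Agent.W350.EdgeEC.lf W v
        (((3 / 2 : ℝ) : ℂ) + Pool.Agent.W5h26.EP.pt σ t) := by
    intro W σ t
    have h0 : point σ t = ((3 / 2 : ℝ) : ℂ) + Pool.Agent.W5h26.EP.pt σ t := by
      unfold point Pool.Agent.W5h26.EP.pt
      push_cast
      ring
    rw [h0]
    refine tprod_congr fun v => ?_
    have h1 : (Nat.card {xy : (𝓞 K ⧸ v.asIdeal) × (𝓞 K ⧸ v.asIdeal) //
            ((W v).map (Ideal.Quotient.mk v.asIdeal)).toAffine.Equation xy.1 xy.2}) =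
        Pool.Agent.H341R2.EC.aff (Pool.Agent.H341R2.EC.red v (W v)) := by
      unfold Pool.Agent.H341R2.EC.aff Pool.Agent.H341R2.EC.red
      refine Nat.card_congr (Equiv.subtypeEquivRight fun q => ?_)
      exact WeierstrassCurve.Affine.equation_iff ..
    unfold localFactor Pool.Agent.W350.EdgeEC.lf Pool.Agent.H341R2.EC.trc
    rw [h1]
    unfold Pool.Agent.H921R2.TatePole.nm
    push_cast
    rfl
  have hbd : ∀ (W : HeightOneSpectrum (𝓞 K) → WeierstrassCurve (𝓞 K)) (l : ℝ → ℂ),
      IsBoundary W l ↔ Pool.Agent.W5h26.EP.IsBdy W l := by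
    intro W l
    unfold IsBoundary Pool.Agent.W5h26.EP.IsBdy
    simp only [hlf]
  refine ⟨fun E hE W hW => ?_, ?_, fun ε hε => ?_⟩
  · obtain ⟨l, h1, h2⟩ := Pool.Agent.W5h26.EP.exists_bdy E hE W
      (fun v => Pool.Agent.W350.EdgeEC.isMinAt_twist (hW v))
    exact ⟨l, h1, (hbd W l).2 h2⟩
  · obtain ⟨C, hC⟩ := Pool.Agent.W5h26.EP.main_bound K hp hp'
    refine ⟨C, fun E _ W _ l hl t₀ => ?_⟩
    simp only [hlf]
    exact hC W l ((hbd W l).1 hl) t₀
  · obtain ⟨δ, hδ, P, hP, h⟩ := Pool.Agent.W5h26.EP.main_conv K hp hp' hε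
    refine ⟨δ, hδ, P, hP, fun E _ W _ l hl => ?_⟩
    simp only [hlf]
    exact h W l ((hbd W l).1 hl)

end Pool.Agent.Results.MP_0d9be2_nt.StepanovEdge
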